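import Pool.Agent.Lib.CL43.Main

namespace Pool.Agent.Results.MP_93a6aa_co.RandomLower

/-- Almost no cubic graph of girth at least `g ≥ 3` has a circular `(27,11)`-colouring, that is,
a homomorphism to the circular clique `K_{27/11}`. -/
theorem result : ∀ g : ℕ, 3 ≤ g → ∀ ε : ℝ, 0 < ε → ∃ n0 : ℕ, ∀ n, n0 ≤ n → Even n →
    0 < {G : SimpleGraph (Fin n) |
      (∀ v, (G.neighborSet v).ncard = 3) ∧ (g : ℕ∞) ≤ G.egirth}.ncard ∧
    ({G : SimpleGraph (Fin n) | (∀ v, (G.neighborSet v).ncard = 3) ∧ (g : ℕ∞) ≤ G.egirth ∧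
        ∃ f : Fin n → ℤ, (∀ v, 0 ≤ f v ∧ f v < 27) ∧
          ∀ u v, G.Adj u v → 11 ≤ |f u - f v| ∧ |f u - f v| ≤ 16}.ncard : ℝ)
      ≤ ε * {G : SimpleGraph (Fin n) |
        (∀ v, (G.neighborSet v).ncard = 3) ∧ (g : ℕ∞) ≤ G.egirth}.ncard :=
  Pool.Agent.Lib.CL43.main

end Pool.Agent.Results.MP_93a6aa_co.RandomLower
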