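import Pool.Agent.Lib.RC5.All
import Pool.Agent.Lib.RC5.B_SC
import Pool.Agent.Lib.RC5.B_ST

namespace Pool.Agent.Results.MP_93a6aa_co.RandomPentagon

/-- Almost all cubic graphs of girth at least `k ≥ 4` have a homomorphism to the 5-cycle. -/
theorem result : ∀ k : ℕ, 4 ≤ k → ∀ ε : ℝ, 0 < ε → ∃ n0 : ℕ, ∀ n, n0 ≤ n → Even n →
    0 < {G : SimpleGraph (Fin n) |
      (∀ v, (G.neighborSet v).ncard = 3) ∧ (k : ℕ∞) ≤ G.egirth}.ncard ∧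
    ({G : SimpleGraph (Fin n) | (∀ v, (G.neighborSet v).ncard = 3) ∧ (k : ℕ∞) ≤ G.egirth ∧
        IsEmpty (SimpleGraph.Hom G (SimpleGraph.cycleGraph 5))}.ncard : ℝ)
      ≤ ε * {G : SimpleGraph (Fin n) |
        (∀ v, (G.neighborSet v).ncard = 3) ∧ (k : ℕ∞) ≤ G.egirth}.ncard :=
  Pool.Agent.Lib.RC5.main_of_ST (Pool.Agent.Lib.RC5.st_ST Pool.Agent.Lib.RC5.st_SC)

end Pool.Agent.Results.MP_93a6aa_co.RandomPentagon
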